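import Pool.Agent.TH68.Final

set_option autoImplicit false
set_option linter.unusedSectionVars false

/-! Branching in the construction of simple `T₀`-groups: a binary tree of stages whose branches have
different limits. -/

namespace Pool.Agent.Y51.ST

open Pool.Agent.TH68 Pool.Agent.Helper97.Hyp

/-- a limit of stages -/
theorem limit_gen {Γ : Type*} [Group Γ] {L : Set Γ} (K : ℕ → Subgroup Γ)
    (hn : ∀ n, (K n).Normal) (hk : ∀ n, KGrp (Γ ⧸ K n)) (hmono : Monotone K)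
    (hL : ∀ x ∈ L, ∀ n, x ∉ K n)
    (htask : ∀ a b v : Γ, ∀ n₀, ∃ n, n₀ ≤ n ∧
      (orderOf (a : Γ ⧸ K n) = 2 → orderOf (b : Γ ⧸ K n) = 2 →
        (∃ k : ℕ, 0 < k ∧ (a * b) ^ k ∈ K (n + 1)) ∧
        (v ∉ K n → a * b ∈ Subgroup.normalClosure {v} ⊔ K (n + 1)))) :
    St.Lim L (⨆ n, K n) := by
  have hdir : Directed (· ≤ ·) K := hmono.directed_le
  have hmem : ∀ x, x ∈ (⨆ n, K n) ↔ ∃ n, x ∈ K n := fun x => Subgroup.mem_iSup_of_directed hdir
  have hle : ∀ n, K n ≤ ⨆ n, K n := fun n => le_iSup K n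
  set KK : Subgroup Γ := ⨆ n, K n with hK
  have hord2 : ∀ a : Γ, a ^ 2 ∈ KK → a ∉ KK → ∃ n₀, ∀ n, n₀ ≤ n →
      orderOf (a : Γ ⧸ K n) = 2 := by
    intro a ha ha'
    obtain ⟨n₀, hn₀⟩ := (hmem _).mp ha
    refine ⟨n₀, fun n hn => ?_⟩
    apply orderOf_eq_prime
    · rw [← QuotientGroup.mk_pow, mk_eq_one]
      exact hmono hn hn₀
    · rw [Ne, mk_eq_one]
      exact fun h => ha' (hle n h)
  constructor
  · -- normality
    constructor
    intro n hn' g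
    obtain ⟨k, hk'⟩ := (hmem _).mp hn'
    exact hle k ((hn k).conj_mem n hk' g)
  · intro x hx hxK
    obtain ⟨n, hn'⟩ := (hmem _).mp hxK
    exact hL x hx n hn'
  · intro x k hk0 hxk
    obtain ⟨n, hn'⟩ := (hmem _).mp hxk
    have h1 : IsOfFinOrder (x : Γ ⧸ K n) := by
      rw [isOfFinOrder_iff_pow_eq_one]
      exact ⟨k, hk0, by rw [← QuotientGroup.mk_pow, mk_eq_one]; exact hn'⟩
    rcases (hk n).ord _ h1 with h2 | h2
    · left
      exact hle n (mk_eq_one.mp h2)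
    · right
      refine ⟨_, h2, hle n ?_⟩
      rw [← mk_eq_one, QuotientGroup.mk_pow, pow_orderOf_eq_one]
  · intro x r hr hr2 hxr hx y hxy
    obtain ⟨n₁, hn₁⟩ := (hmem _).mp hxr
    obtain ⟨n₂, hn₂⟩ := (hmem _).mp hxy
    set n := max n₁ n₂ with hndef
    have h1 : orderOf (x : Γ ⧸ K n) = r := by
      have := Fact.mk hr
      apply orderOf_eq_prime
      · rw [← QuotientGroup.mk_pow, mk_eq_one]
        exact hmono (le_max_left _ _) hn₁
      · rw [Ne, mk_eq_one]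
        exact fun h => hx (hle n h)
    have h2 : Commute (x : Γ ⧸ K n) (y : Γ ⧸ K n) := by
      have h3 : ((x * y * x⁻¹ * y⁻¹ : Γ) : Γ ⧸ K n) = 1 :=
        mk_eq_one.mpr (hmono (le_max_right _ _) hn₂)
      rw [QuotientGroup.mk_mul, QuotientGroup.mk_mul, QuotientGroup.mk_mul, QuotientGroup.mk_inv,
        QuotientGroup.mk_inv, mul_inv_eq_one, mul_inv_eq_iff_eq_mul] at h3
      exact h3
    obtain ⟨s, hs⟩ := (hk n).cent _ (by rw [h1]; exact hr) (by rw [h1]; exact hr2) _ h2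
    have hs' : (x : Γ ⧸ K n) ^ s = y := hs
    refine ⟨s, hle n ?_⟩
    rw [← mk_eq_iff, QuotientGroup.mk_zpow, hs']
  · intro a b ha ha' hb hb' hab
    obtain ⟨n₁, hn₁⟩ := hord2 a ha ha'
    obtain ⟨n₂, hn₂⟩ := hord2 b hb hb'
    obtain ⟨n₃, hn₃⟩ := (hmem _).mp hab
    set n := max (max n₁ n₂) n₃ with hndef
    have h2 : Commute (a : Γ ⧸ K n) (b : Γ ⧸ K n) := by
      have h3 : ((a * b * a⁻¹ * b⁻¹ : Γ) : Γ ⧸ K n) = 1 :=
        mk_eq_one.mpr (hmono (le_max_right _ _) hn₃)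
      rw [QuotientGroup.mk_mul, QuotientGroup.mk_mul, QuotientGroup.mk_mul, QuotientGroup.mk_inv,
        QuotientGroup.mk_inv, mul_inv_eq_one, mul_inv_eq_iff_eq_mul] at h3
      exact h3
    have h3 := (hk n).inv _ _ (hn₁ n (le_trans (le_max_left _ _) (le_max_left _ _)))
      (hn₂ n (le_trans (le_max_right _ _) (le_max_left _ _))) h2
    exact hle n (mk_eq_iff.mp h3)
  · intro a b ha ha' hb hb'
    obtain ⟨n₁, hn₁⟩ := hord2 a ha ha'
    obtain ⟨n₂, hn₂⟩ := hord2 b hb hb'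
    obtain ⟨n, hn', h1⟩ := htask a b 1 (max n₁ n₂)
    obtain ⟨⟨k, hk0, hk1⟩, -⟩ := h1 (hn₁ n (le_trans (le_max_left _ _) hn'))
      (hn₂ n (le_trans (le_max_right _ _) hn'))
    exact ⟨k, hk0, hle _ hk1⟩
  · intro v a b hv ha ha' hb hb'
    obtain ⟨n₁, hn₁⟩ := hord2 a ha ha'
    obtain ⟨n₂, hn₂⟩ := hord2 b hb hb'
    obtain ⟨n, hn', h1⟩ := htask a b v (max n₁ n₂)
    obtain ⟨-, h2⟩ := h1 (hn₁ n (le_trans (le_max_left _ _) hn'))
      (hn₂ n (le_trans (le_max_right _ _) hn'))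
    have h3 := h2 (fun h => hv (hle n h))
    exact (sup_le_sup_left (hle (n + 1)) _ : Subgroup.normalClosure {v} ⊔ K (n + 1) ≤ _) h3

section tree

variable {Γ : Type*} [Group Γ] {p q : ℕ} {i y z : Γ}

/-- killing the power of a root at two different primes, keeping the root alive -/
lemma kill_two {G : Type*} [Group G] (hG : KGrp G) {g : G} (hg : Root g) {B : Set G}
    (hB : B.Finite) (hB1 : ∀ b ∈ B, b ≠ 1) :
    ∃ m : Bool → ℕ, (m false).Coprime (m true) ∧ ∃ N : Bool → Subgroup G, ∀ c,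
      (N c).Normal ∧ g ^ m c ∈ N c ∧ (∀ b ∈ B, b ∉ N c) ∧ ∀ [(N c).Normal], KGrp (G ⧸ N c) := by
  obtain ⟨m₀, hm₀⟩ := step hG hg (hB.insert 1) (F := ∅) Set.finite_empty (by simp) (by simp)
  obtain ⟨m, hm, hmp⟩ := Nat.exists_infinite_primes m₀
  obtain ⟨m', hm', hmp'⟩ := Nat.exists_infinite_primes (m + 1)
  have key : ∀ r : ℕ, m₀ ≤ r → r.Prime →
      (Subgroup.normalClosure {g ^ r}).Normal ∧ g ^ r ∈ Subgroup.normalClosure {g ^ r} ∧
      (∀ b ∈ B, b ∉ Subgroup.normalClosure {g ^ r}) ∧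
      ∀ [(Subgroup.normalClosure {g ^ r}).Normal], KGrp (G ⧸ Subgroup.normalClosure {g ^ r}) := by
    intro r hr hrp
    obtain ⟨h1, h2, -⟩ := hm₀ r hr hrp
    refine ⟨Subgroup.normalClosure_normal, Subgroup.subset_normalClosure rfl, ?_, ?_⟩
    · intro b hb hbN
      apply hB1 b hb
      symm
      apply h2 1 (Or.inl rfl) b (Or.inr hb)
      rwa [inv_one, one_mul]
    · intro _
      exact h1
  refine ⟨fun c => cond c m' m, ?_, fun c => Subgroup.normalClosure {g ^ (cond c m' m)}, ?_⟩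
  · change Nat.Coprime m m'
    rw [Nat.coprime_primes hmp hmp']
    omega
  · intro c
    cases c
    · exact key m hm hmp
    · exact key m' (by omega) hmp'

/-- a stage together with its set of protected elements -/
structure PS (p q : ℕ) (i y z : Γ) where
  L : Set Γ
  hD : Dat L p q i y z
  S : St L p q i y z

/-- the task performed by an extension of a stage -/
def Task (K K' : Subgroup Γ) [K.Normal] (t : Γ × Γ × Γ) : Prop :=
  orderOf (t.1 : Γ ⧸ K) = 2 → orderOf (t.2.1 : Γ ⧸ K) = 2 →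
    (∃ k : ℕ, 0 < k ∧ (t.1 * t.2.1) ^ k ∈ K') ∧
    (t.2.2 ∉ K → t.1 * t.2.1 ∈ Subgroup.normalClosure {t.2.2} ⊔ K')

lemma Task.mono {K K' K'' : Subgroup Γ} [K.Normal] {t : Γ × Γ × Γ} (h : Task K K' t)
    (hK : K' ≤ K'') : Task K K'' t := by
  intro h1 h2
  obtain ⟨⟨k, hk, hk1⟩, h3⟩ := h h1 h2
  exact ⟨⟨k, hk, hK hk1⟩, fun hv =>
    (sup_le_sup_left hK _ : Subgroup.normalClosure {t.2.2} ⊔ K' ≤ _) (h3 hv)⟩

/-- the branching step -/
theorem branch (P : PS p q i y z) (t : Γ × Γ × Γ) :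
    ∃ Q : Bool → PS p q i y z, (∀ c, P.L ⊆ (Q c).L) ∧ (∀ c, P.S.K ≤ (Q c).S.K) ∧
      (∀ c, Task P.S.K (Q c).S.K t) ∧
      ∃ (x : Γ) (m : Bool → ℕ), (m false).Coprime (m true) ∧ ∀ c, x ∈ (Q c).L ∧
        x ^ m c ∈ (Q c).S.K := by
  obtain ⟨S', hS', ht⟩ := P.S.task P.hD t.1 t.2.1 t.2.2
  have hD := P.hD
  have hinf := S'.inf hD
  have hy : (y : Γ ⧸ S'.K) ≠ 1 := by
    rw [Ne, mk_eq_one]; exact S'.hL _ hD.hyL
  obtain ⟨w, -, hw⟩ := e2 S'.kgrp (y₀ := (y : Γ ⧸ S'.K)) (by rw [S'.ord_y hD]; exact hD.hp)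
    (by rw [S'.ord_y hD]; exact hD.hp2) (S'.ord_i hD) (S'.ord_i hD) (v := (y : Γ ⧸ S'.K)) hy
  have hb' : orderOf (w⁻¹ * (i : Γ ⧸ S'.K) * w) = 2 := by
    have h2 : w⁻¹ * (i : Γ ⧸ S'.K) * w = MulAut.conj w⁻¹ (i : Γ ⧸ S'.K) := by
      rw [MulAut.conj_apply, inv_inv]
    rw [h2, MulEquiv.orderOf_eq, S'.ord_i hD]
  obtain ⟨g, hg, -⟩ := e1 S'.kgrp (S'.ord_i hD) hb' hw
  obtain ⟨x, rfl⟩ := QuotientGroup.mk_surjective g
  have hx1 : (x : Γ ⧸ S'.K) ≠ 1 := fun h => hg.inf (h ▸ IsOfFinOrder.one)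
  have hL' : (insert x P.L).Finite := hD.fin.insert x
  obtain ⟨m, hm, N, hN⟩ := kill_two S'.kgrp hg (B := (QuotientGroup.mk : Γ → Γ ⧸ S'.K) ''
    (insert x P.L)) (hL'.image _) (by
      rintro _ ⟨u, hu, rfl⟩ h4
      rcases hu with rfl | hu
      · exact hx1 h4
      · exact S'.hL u hu (mk_eq_one.mp h4))
  have hNn : ∀ c, (N c).Normal := fun c => (hN c).1
  have hle : ∀ c, S'.K ≤ St.pull S'.K (N c) := by
    intro c u hu
    rw [St.mem_pull, mk_eq_one.mpr hu]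
    exact one_mem _
  have hD' : Dat (insert x P.L) p q i y z :=
    ⟨hL', Or.inr hD.hi, Or.inr hD.hyL, Or.inr hD.hzL, hD.i2, hD.hp, hD.hq, hD.hp2, hD.hq2, hD.hpq⟩
  refine ⟨fun c => ⟨insert x P.L, hD', ⟨St.pull S'.K (N c), St.pull_normal _ _,
    St.pull_kgrp S'.K (N c) ((hN c).2.2.2), fun u hu huk => (hN c).2.2.1 _ ⟨u, hu, rfl⟩ huk,
    hle c S'.hy, hle c S'.hz⟩⟩, fun c => Set.subset_insert _ _, fun c => hS'.trans (hle c),
    fun c => Task.mono ht (hle c), x, m, hm, fun c => ⟨Set.mem_insert _ _, ?_⟩⟩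
  change x ^ m c ∈ St.pull S'.K (N c)
  rw [St.mem_pull, QuotientGroup.mk_pow]
  exact (hN c).2.1

/-- the chosen extension -/
noncomputable def nxt (P : PS p q i y z) (t : Γ × Γ × Γ) : Bool → PS p q i y z :=
  Classical.choose (branch P t)

lemma nxt_spec (P : PS p q i y z) (t : Γ × Γ × Γ) :
    (∀ c, P.L ⊆ (nxt P t c).L) ∧ (∀ c, P.S.K ≤ (nxt P t c).S.K) ∧
      (∀ c, Task P.S.K (nxt P t c).S.K t) ∧
      ∃ (x : Γ) (m : Bool → ℕ), (m false).Coprime (m true) ∧ ∀ c, x ∈ (nxt P t c).L ∧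
        x ^ m c ∈ (nxt P t c).S.K :=
  Classical.choose_spec (branch P t)

/-- the stages along a branch -/
noncomputable def sq (P : PS p q i y z) (f : ℕ → Γ × Γ × Γ) (s : ℕ → Bool) : ℕ → PS p q i y z
  | 0 => P
  | n + 1 => nxt (sq P f s n) (f n) (s n)

lemma sq_congr (P : PS p q i y z) (f : ℕ → Γ × Γ × Γ) {s s' : ℕ → Bool} {n : ℕ}
    (h : ∀ k < n, s k = s' k) : sq P f s n = sq P f s' n := by
  induction n with
  | zero => rfl
  | succ n ih =>
    rw [sq, sq, ih (fun k hk => h k (by omega)), h n (by omega)]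

/-- the limit subgroup of a branch -/
noncomputable def lim (P : PS p q i y z) (f : ℕ → Γ × Γ × Γ) (s : ℕ → Bool) : Subgroup Γ :=
  ⨆ n, (sq P f s n).S.K

lemma sqK_mono (P : PS p q i y z) (f : ℕ → Γ × Γ × Γ) (s : ℕ → Bool) :
    Monotone (fun n => (sq P f s n).S.K) :=
  monotone_nat_of_le_succ fun n => (nxt_spec (sq P f s n) (f n)).2.1 (s n)

lemma sqL_mono (P : PS p q i y z) (f : ℕ → Γ × Γ × Γ) (s : ℕ → Bool) :
    Monotone (fun n => (sq P f s n).L) :=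
  monotone_nat_of_le_succ fun n => (nxt_spec (sq P f s n) (f n)).1 (s n)

lemma not_mem_of_L (P : PS p q i y z) (f : ℕ → Γ × Γ × Γ) (s : ℕ → Bool) {x : Γ} {n : ℕ}
    (hx : x ∈ (sq P f s n).L) (k : ℕ) : x ∉ (sq P f s k).S.K := by
  intro h
  have h1 : x ∈ (sq P f s (max n k)).L := sqL_mono P f s (le_max_left n k) hx
  exact (sq P f s (max n k)).S.hL x h1 (sqK_mono P f s (le_max_right n k) h)

theorem lim_spec (P : PS p q i y z) {f : ℕ → Γ × Γ × Γ} (hf : ∀ a n, ∃ m, n ≤ m ∧ f m = a)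
    (s : ℕ → Bool) : St.Lim (⋃ n, (sq P f s n).L) (lim P f s) := by
  apply limit_gen (fun n => (sq P f s n).S.K) (fun n => (sq P f s n).S.normal)
    (fun n => (sq P f s n).S.kgrp) (sqK_mono P f s)
  · intro x hx n
    obtain ⟨k, hk⟩ := Set.mem_iUnion.1 hx
    exact not_mem_of_L P f s hk n
  · intro a b v n₀
    obtain ⟨n, hn, hfn⟩ := hf (a, b, v) n₀
    have h1 := (nxt_spec (sq P f s n) (f n)).2.2.1 (s n)
    rw [hfn] at h1
    refine ⟨n, hn, ?_⟩
    have h2 : sq P f s (n + 1) = nxt (sq P f s n) (a, b, v) (s n) := by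
      rw [sq, hfn]
    rw [h2]
    exact h1

lemma lim_ne (P : PS p q i y z) (f : ℕ → Γ × Γ × Γ) {s s' : ℕ → Bool} {n : ℕ}
    (h : ∀ k < n, s k = s' k) (hs : s n = false) (hs' : s' n = true) :
    lim P f s ≠ lim P f s' := by
  intro he
  obtain ⟨-, -, -, x, m, hm, hx⟩ := nxt_spec (sq P f s n) (f n)
  have h1 : sq P f s (n + 1) = nxt (sq P f s n) (f n) false := by rw [sq, hs]
  have h2 : sq P f s' (n + 1) = nxt (sq P f s n) (f n) true := by
    rw [sq, hs', ← sq_congr P f h]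
  have hxL : x ∈ (sq P f s (n + 1)).L := by rw [h1]; exact (hx false).1
  have hx1 : x ^ m false ∈ lim P f s := by
    have h3 : x ^ m false ∈ (sq P f s (n + 1)).S.K := by rw [h1]; exact (hx false).2
    exact le_iSup (fun n => (sq P f s n).S.K) (n + 1) h3
  have hx2 : x ^ m true ∈ lim P f s := by
    have h3 : x ^ m true ∈ (sq P f s' (n + 1)).S.K := by rw [h2]; exact (hx true).2
    rw [he]
    exact le_iSup (fun n => (sq P f s' n).S.K) (n + 1) h3
  have hxm : x ∈ lim P f s := by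
    obtain ⟨c, d, hcd⟩ := Nat.isCoprime_iff_coprime.2 hm
    have h8 : x = (x ^ m false) ^ c * (x ^ m true) ^ d := by
      rw [← zpow_natCast, ← zpow_natCast, ← zpow_mul, ← zpow_mul, ← zpow_add]
      have : (m false : ℤ) * c + (m true : ℤ) * d = 1 := by linarith
      rw [this, zpow_one]
    rw [h8]
    exact mul_mem (Subgroup.zpow_mem _ hx1 _) (Subgroup.zpow_mem _ hx2 _)
  obtain ⟨k, hk⟩ := (Subgroup.mem_iSup_of_directed (sqK_mono P f s).directed_le).1 hxm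
  exact not_mem_of_L P f s hxL k hk

theorem lim_injective (P : PS p q i y z) (f : ℕ → Γ × Γ × Γ) :
    Function.Injective (lim P f) := by
  intro s s' he
  by_contra hne
  have hex : ∃ n, s n ≠ s' n := by
    by_contra h
    push Not at h
    exact hne (funext h)
  classical
  obtain ⟨n, hn, hmin⟩ : ∃ n, s n ≠ s' n ∧ ∀ k < n, s k = s' k :=
    ⟨Nat.find hex, Nat.find_spec hex, fun k hk => by
      by_contra h
      exact Nat.find_min hex hk h⟩
  cases h1 : s n <;> cases h2 : s' n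
  · exact hn (h1.trans h2.symm)
  · exact lim_ne P f hmin h1 h2 he
  · exact lim_ne P f (fun k hk => (hmin k hk).symm) h2 h1 he.symm
  · exact hn (h1.trans h2.symm)

end tree

end Pool.Agent.Y51.ST
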