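import Pool.Agent.Y51.ST.Branch

set_option autoImplicit false
set_option linter.unusedSectionVars false

/-! Continuum many pairwise nonisomorphic quotients. -/

namespace Pool.Agent.Y51.ST

open Pool.Agent.TH68 Pool.Agent.Helper97.Hyp
open Cardinal hiding mk_eq_one

/-- among continuum many quotients of a finitely generated group by different normal subgroups there
are continuum many pairwise nonisomorphic ones -/
theorem choose_noniso {Γ : Type} [Group Γ] [Countable Γ] {T : Set Γ} (hT : T.Finite)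
    (hgen : Subgroup.closure T = ⊤) (K : (ℕ → Bool) → Subgroup Γ) (hK : Function.Injective K)
    [hn : ∀ s, (K s).Normal] :
    ∃ φ : ℝ → (ℕ → Bool), ∀ r s : ℝ, Nonempty ((Γ ⧸ K (φ r)) ≃* (Γ ⧸ K (φ s))) → r = s := by
  let S : Setoid (ℕ → Bool) :=
    { r := fun s t => Nonempty ((Γ ⧸ K s) ≃* (Γ ⧸ K t))
      iseqv := ⟨fun s => ⟨MulEquiv.refl _⟩, fun ⟨e⟩ => ⟨e.symm⟩, fun ⟨e⟩ ⟨e'⟩ => ⟨e.trans e'⟩⟩ }
  have hfib : ∀ t : ℕ → Bool, {s | Nonempty ((Γ ⧸ K s) ≃* (Γ ⧸ K t))}.Countable := by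
    intro t
    have hTf : Finite T := hT
    have hc : Countable (Γ ⧸ K t) := QuotientGroup.mk_surjective.countable
    have hcf : Countable (T → Γ ⧸ K t) := inferInstance
    have hhom : Countable (Γ →* Γ ⧸ K t) := by
      apply Function.Injective.countable (f := fun (ψ : Γ →* Γ ⧸ K t) (x : T) => ψ x)
      intro ψ ψ' h
      apply MonoidHom.eq_of_eqOn_top
      rw [← hgen]
      apply MonoidHom.eqOn_closure
      intro x hx
      exact congrFun h ⟨x, hx⟩
    rw [← Set.countable_coe_iff]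
    apply Function.Injective.countable
      (f := fun s : {s | Nonempty ((Γ ⧸ K s) ≃* (Γ ⧸ K t))} =>
        ((Classical.choice s.2 : (Γ ⧸ K s.1) ≃* (Γ ⧸ K t)).toMonoidHom.comp
          (QuotientGroup.mk' (K s.1))))
    intro s s' h
    have hker : ∀ u : {s | Nonempty ((Γ ⧸ K s) ≃* (Γ ⧸ K t))},
        ((Classical.choice u.2 : (Γ ⧸ K u.1) ≃* (Γ ⧸ K t)).toMonoidHom.comp
          (QuotientGroup.mk' (K u.1))).ker = K u.1 := by
      intro u
      ext x
      rw [MonoidHom.mem_ker, MonoidHom.comp_apply]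
      change (Classical.choice u.2 : (Γ ⧸ K u.1) ≃* (Γ ⧸ K t)) (QuotientGroup.mk' (K u.1) x) = 1 ↔ _
      rw [EmbeddingLike.map_eq_one_iff]
      exact QuotientGroup.eq_one_iff x
    apply Subtype.ext
    apply hK
    rw [← hker s, ← hker s']
    exact congrArg MonoidHom.ker h
  have hcard : #(ℕ → Bool) ≤ #(Quotient S) * ℵ₀ := by
    apply mk_le_mk_mul_of_mk_preimage_le (Quotient.mk S)
    intro b
    induction b using Quotient.inductionOn with
    | h t =>
      rw [le_aleph0_iff_set_countable]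
      apply (hfib t).mono
      intro s hs
      exact Quotient.exact (s := S) (by simpa using hs)
  have hcont : #(ℕ → Bool) = 𝔠 := by simp
  have hQ : 𝔠 ≤ #(Quotient S) := by
    by_contra hlt
    push Not at hlt
    have h1 : #(Quotient S) * ℵ₀ < 𝔠 := mul_lt_of_lt aleph0_le_continuum hlt aleph0_lt_continuum
    rw [hcont] at hcard
    exact absurd hcard (not_le.2 h1)
  have hR : #ℝ ≤ #(Quotient S) := by rw [mk_real]; exact hQ
  obtain ⟨ψ⟩ := hR
  refine ⟨fun r => (ψ r).out, fun r s h => ψ.injective ?_⟩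
  have h1 : S.r (ψ r).out (ψ s).out := h
  have h2 := Quotient.sound (s := S) h1
  simpa using h2

/-- the algebraic hypotheses hold in the limit -/
theorem lim_alg {Γ : Type*} [Group Γ] {L : Set Γ} {K : Subgroup Γ} [K.Normal]
    (hK : St.Lim L K) : AlgH (Γ ⧸ K) := by
  have ord2 : ∀ a : Γ, orderOf (a : Γ ⧸ K) = 2 ↔ a ^ 2 ∈ K ∧ a ∉ K := by
    intro a
    rw [orderOf_eq_prime_iff, ← QuotientGroup.mk_pow, mk_eq_one, Ne, mk_eq_one]
  have comm_mem : ∀ a b : Γ, Commute (a : Γ ⧸ K) (b : Γ ⧸ K) → a * b * a⁻¹ * b⁻¹ ∈ K := by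
    intro a b hab
    rw [← mk_eq_one, QuotientGroup.mk_mul, QuotientGroup.mk_mul, QuotientGroup.mk_mul,
      QuotientGroup.mk_inv, QuotientGroup.mk_inv, hab.eq]
    group
  constructor
  · intro x hx
    obtain ⟨x, rfl⟩ := QuotientGroup.mk_surjective x
    obtain ⟨n, hn, hn1⟩ := hx.exists_pow_eq_one
    rw [← QuotientGroup.mk_pow, mk_eq_one] at hn1
    rcases hK.ord x n hn hn1 with h1 | ⟨r, hr, h1⟩
    · left; exact mk_eq_one.mpr h1
    · by_cases hx1 : (x : Γ ⧸ K) = 1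
      · exact Or.inl hx1
      right
      have := Fact.mk hr
      rw [orderOf_eq_prime (p := r) (by rw [← QuotientGroup.mk_pow, mk_eq_one]; exact h1) hx1]
      exact hr
  · intro x hx hx2 y hxy
    obtain ⟨x, rfl⟩ := QuotientGroup.mk_surjective x
    obtain ⟨y, rfl⟩ := QuotientGroup.mk_surjective y
    obtain ⟨s, hs⟩ := hK.cent x (orderOf (x : Γ ⧸ K)) hx hx2
      (by rw [← mk_eq_one, QuotientGroup.mk_pow, pow_orderOf_eq_one])
      (by
        intro h
        rw [← mk_eq_one] at h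
        rw [h, orderOf_one] at hx
        exact Nat.not_prime_one hx) y (comm_mem x y hxy)
    refine ⟨s, ?_⟩
    simp only
    rw [← QuotientGroup.mk_zpow]
    exact (mk_eq_iff.mpr hs).symm
  · intro a b ha hb hab
    obtain ⟨a, rfl⟩ := QuotientGroup.mk_surjective a
    obtain ⟨b, rfl⟩ := QuotientGroup.mk_surjective b
    obtain ⟨ha1, ha2⟩ := (ord2 a).mp ha
    obtain ⟨hb1, hb2⟩ := (ord2 b).mp hb
    exact mk_eq_iff.mpr (hK.inv a b ha1 ha2 hb1 hb2 (comm_mem a b hab))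
  · intro a b ha hb
    obtain ⟨a, rfl⟩ := QuotientGroup.mk_surjective a
    obtain ⟨b, rfl⟩ := QuotientGroup.mk_surjective b
    obtain ⟨ha1, ha2⟩ := (ord2 a).mp ha
    obtain ⟨hb1, hb2⟩ := (ord2 b).mp hb
    obtain ⟨k, hk, hk1⟩ := hK.fin a b ha1 ha2 hb1 hb2
    rw [isOfFinOrder_iff_pow_eq_one]
    exact ⟨k, hk, by rw [← QuotientGroup.mk_mul, ← QuotientGroup.mk_pow, mk_eq_one]; exact hk1⟩

theorem main : ∃ (G : ℝ → Type) (_ : ∀ r, Group (G r)),
    (∀ r, IsSimpleGroup (G r) ∧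
      (∃ i j k : G r, orderOf i = 2 ∧ orderOf j = 2 ∧ orderOf k = 2 ∧
        Subgroup.closure {i, j, k} = ⊤) ∧
      (∀ i : G r, orderOf i = 2 → IsT0 (G r) i) ∧
      (∀ x : G r, IsOfFinOrder x → x = 1 ∨ (orderOf x).Prime) ∧
      ∀ x : G r, (orderOf x).Prime → orderOf x ≠ 2 →
        Subgroup.centralizer {x} = Subgroup.zpowers x) ∧
    ∀ r s, Nonempty (G r ≃* G s) → r = s := by
  obtain ⟨Γ, _, _, hΓ, i, j, k, hi, hj, hk, hgen, h1, h2, h3, h4⟩ := start
  obtain ⟨y, z, p, q, L, hD, hjL, hkL, S, hS⟩ := init hΓ hi hj hk h1 h2 h3 h4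
  obtain ⟨f, hf⟩ := exists_enum (Γ × Γ × Γ)
  set P : PS p q i y z := ⟨L, hD, S⟩ with hP
  have hlim := lim_spec P hf
  have hn : ∀ s, (lim P f s).Normal := fun s => (hlim s).normal
  obtain ⟨φ, hφ⟩ := choose_noniso (T := {i, j, k}) (by simp) hgen (lim P f) (lim_injective P f)
  refine ⟨fun r => Γ ⧸ lim P f (φ r), fun r => inferInstance, fun r => ?_, hφ⟩
  have hLsub : L ⊆ ⋃ n, (sq P f (φ r) n).L := fun x hx => Set.mem_iUnion.2 ⟨0, hx⟩
  have hKsub : S.K ≤ lim P f (φ r) := le_iSup (fun n => (sq P f (φ r) n).S.K) 0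
  have hj2 : j ^ 2 = 1 := by rw [← hj, pow_orderOf_eq_one]
  have hk2 : k ^ 2 = 1 := by rw [← hk, pow_orderOf_eq_one]
  have h5 := of_lim (hlim (φ r)) hD.hp hD.hp2 (hLsub hD.hi) (hLsub hjL) (hLsub hkL)
    (hLsub hD.hyL) hD.i2 hj2 hk2 (hKsub S.hy) hgen (hKsub hS)
  have hA := lim_alg (hlim (φ r))
  have mem2 : ∀ a : Γ, a ^ 2 = 1 → a ∈ L → orderOf (a : Γ ⧸ lim P f (φ r)) = 2 := by
    intro a ha haL
    apply orderOf_eq_prime
    · rw [← QuotientGroup.mk_pow, ha]; rfl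
    · rw [Ne, mk_eq_one]; exact (hlim (φ r)).hL a (hLsub haL)
  refine ⟨h5.1, ⟨(i : Γ ⧸ lim P f (φ r)), j, k, mem2 i hD.i2 hD.hi, mem2 j hj2 hjL,
    mem2 k hk2 hkL, ?_⟩, ?_, hA.ord, ?_⟩
  · have h6 := congrArg (Subgroup.map (QuotientGroup.mk' (lim P f (φ r)))) hgen
    rw [MonoidHom.map_closure, Subgroup.map_top_of_surjective _
      (QuotientGroup.mk'_surjective _)] at h6
    rw [← h6]
    congr 1
    rw [Set.image_insert_eq, Set.image_insert_eq, Set.image_singleton]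
    rfl
  · intro a ha
    have := h5.1
    refine alg ha hA.ord hA.cent hA.inv hA.fin ⟨(y : Γ ⧸ lim P f (φ r)), ?_, ?_⟩
    · rw [Ne, mk_eq_one]; exact (hlim (φ r)).hL y (hLsub hD.hyL)
    · intro h
      have := Fact.mk hD.hp
      have oy : orderOf (y : Γ ⧸ lim P f (φ r)) = p := by
        apply orderOf_eq_prime
        · rw [← QuotientGroup.mk_pow, mk_eq_one]; exact hKsub S.hy
        · rw [Ne, mk_eq_one]; exact (hlim (φ r)).hL y (hLsub hD.hyL)
      rw [h, ha] at oy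
      exact hD.hp2 oy.symm
  · intro x hx hx2
    apply le_antisymm
    · intro u hu
      rw [Subgroup.mem_centralizer_singleton_iff] at hu
      exact hA.cent x hx hx2 u hu.symm
    · intro u hu
      obtain ⟨n, rfl⟩ := Subgroup.mem_zpowers_iff.1 hu
      rw [Subgroup.mem_centralizer_singleton_iff]
      exact (Commute.refl x).zpow_left n

end Pool.Agent.Y51.ST
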